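import Pool.Agent.Y791.BF.Tasks
import Pool.Agent.Y791.BS.Inter
import Pool.Agent.Y700.VC

/-!
# Points divisible by all `n` over a finite extension of a local field are zero (job BF4)
-/

set_option autoImplicit false

open WeierstrassCurve

namespace Pool.Agent.Y46.BF4

open Pool.Agent.TH942 Pool.Agent.TH954 Pool.Agent.Y791.BF Pool.Agent.Y791.BS.Inter

/-- the discriminant of a short Weierstrass equation -/
lemma sw_disc {k C : Type} [Field k] [Field C] [Algebra k C] (a b : k) :
    ((sw a b).baseChange C).Δ =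
      -16 * (4 * (algebraMap k C a) ^ 3 + 27 * (algebraMap k C b) ^ 2) := by
  have e1 : ((sw a b).baseChange C).a₁ = 0 := map_zero _
  have e2 : ((sw a b).baseChange C).a₂ = 0 := map_zero _
  have e3 : ((sw a b).baseChange C).a₃ = 0 := map_zero _
  have e4 : ((sw a b).baseChange C).a₄ = algebraMap k C a := rfl
  have e6 : ((sw a b).baseChange C).a₆ = algebraMap k C b := rfl
  simp only [WeierstrassCurve.Δ, WeierstrassCurve.b₂, WeierstrassCurve.b₄, WeierstrassCurve.b₆,
    WeierstrassCurve.b₈, e1, e2, e3, e4, e6]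
  ring

/-- a point with fixed coordinates is fixed -/
lemma pm_fixed {k C : Type} [Field k] [Field C] [Algebra k C] (E : WeierstrassCurve k)
    (f : C →ₐ[k] C) (P : (E.baseChange C).toAffine.Point)
    (h : ∀ x y hxy, P = .some x y hxy → f x = x ∧ f y = y) : pm E f P = P := by
  match P with
  | .zero => exact map_zero _
  | .some x y hxy =>
    obtain ⟨h1, h2⟩ := h x y hxy rfl
    obtain ⟨h', e'⟩ := pm_some (E := E) f hxy
    rw [e']
    simp only [Affine.Point.some.injEq]
    exact ⟨h1, h2⟩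

/-- the scaling of a short Weierstrass equation -/
lemma vr_sw {k k' C : Type} [Field k] [Field k'] [Field C] [Algebra k C] [Algebra k' C] (a b : k)
    (c d : k') (v : C) (hv : v ≠ 0) (hc : algebraMap k' C c = v ^ 4 * algebraMap k C a)
    (hd : algebraMap k' C d = v ^ 6 * algebraMap k C b) :
    Pool.Agent.Y700.VR ((sw c d).baseChange C) ((sw a b).baseChange C) v 0 0 0 := by
  have e1 : ((sw a b).baseChange C).a₁ = 0 := map_zero _
  have e2 : ((sw a b).baseChange C).a₂ = 0 := map_zero _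
  have e3 : ((sw a b).baseChange C).a₃ = 0 := map_zero _
  have e4 : ((sw a b).baseChange C).a₄ = algebraMap k C a := rfl
  have e6 : ((sw a b).baseChange C).a₆ = algebraMap k C b := rfl
  have f1 : ((sw c d).baseChange C).a₁ = 0 := map_zero _
  have f2 : ((sw c d).baseChange C).a₂ = 0 := map_zero _
  have f3 : ((sw c d).baseChange C).a₃ = 0 := map_zero _
  have f4 : ((sw c d).baseChange C).a₄ = algebraMap k' C c := rfl
  have f6 : ((sw c d).baseChange C).a₆ = algebraMap k' C d := rfl
  refine ⟨hv, ?_, ?_, ?_, ?_, ?_⟩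
  · rw [e1, f1]; ring
  · rw [e2, f2, f1]; ring
  · rw [e3, f3, f1]; ring
  · rw [e4, f4, f3, f2, f1, hc]; ring
  · rw [e6, f6, f4, f3, f2, f1, hd]; ring

open scoped Classical in
/-- the fixed field version -/
theorem core {L C : Type} [NontriviallyNormedField L] [ProperSpace L] [NormedField C]
    [IsUltrametricDist C] [NormedAlgebra L C] [CharZero C] {k : Type} [Field k]
    [Algebra k C] (a b : k) (hne : 4 * a ^ 3 + 27 * b ^ 2 ≠ 0)
    (hext : ∀ c : L, ‖algebraMap L C c‖ = ‖c‖)
    (F : IntermediateField L C) [FiniteDimensional L F]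
    (hmem : ∀ x : C, (∀ σ : C ≃ₐ[L] C, σ ∈ F.fixingSubgroup → σ x = x) → x ∈ F)
    (hab : ∀ σ : C ≃ₐ[L] C, σ ∈ F.fixingSubgroup →
      σ (algebraMap k C a) = algebraMap k C a ∧ σ (algebraMap k C b) = algebraMap k C b)
    (D : ((sw a b).baseChange C).toAffine.Point)
    (hdiv : ∀ n : ℕ, 1 ≤ n → ∃ R : ((sw a b).baseChange C).toAffine.Point,
      n • R = D ∧ ∀ σ : C ≃ₐ[L] C, σ ∈ F.fixingSubgroup →
        ∀ x y h, R = .some x y h → σ x = x ∧ σ y = y) : D = 0 := by
  set a' := algebraMap k C a with ha'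
  set b' := algebraMap k C b with hb'
  have hne' : 4 * a' ^ 3 + 27 * b' ^ 2 ≠ 0 := by
    intro h
    apply hne
    apply (algebraMap k C).injective
    have h4 : algebraMap k C 4 = 4 := map_ofNat _ 4
    have h27 : algebraMap k C 27 = 27 := map_ofNat _ 27
    rw [map_zero, ← h, map_add, map_mul, map_mul, map_pow, map_pow, h4, h27]
  have haF : a' ∈ F := hmem _ fun σ hσ => (hab σ hσ).1
  have hbF : b' ∈ F := hmem _ fun σ hσ => (hab σ hσ).2
  -- the scaling factor
  obtain ⟨u, hu0, hu1⟩ := NormedField.exists_norm_lt L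
    (show (0 : ℝ) < (‖a'‖ + ‖b'‖ + 1)⁻¹ by positivity)
  have hu0' : u ≠ 0 := norm_pos_iff.1 hu0
  set v := algebraMap L C u with hv
  have hv0 : v ≠ 0 := (map_ne_zero _).2 hu0'
  have hvn : ‖v‖ = ‖u‖ := hext u
  have hS : (1 : ℝ) ≤ ‖a'‖ + ‖b'‖ + 1 := by
    have h1 := norm_nonneg a'
    have h2 := norm_nonneg b'
    linarith
  have hv1 : ‖v‖ ≤ 1 := by
    rw [hvn]
    exact hu1.le.trans (inv_le_one_of_one_le₀ hS)
  have hvS : ‖v‖ * (‖a'‖ + ‖b'‖ + 1) ≤ 1 := by
    rw [hvn]
    calc ‖u‖ * (‖a'‖ + ‖b'‖ + 1) ≤ (‖a'‖ + ‖b'‖ + 1)⁻¹ * (‖a'‖ + ‖b'‖ + 1) :=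
          mul_le_mul_of_nonneg_right hu1.le (by linarith)
      _ = 1 := inv_mul_cancel₀ (by linarith)
  have hpow : ∀ (n : ℕ) (c : C), ‖c‖ ≤ ‖a'‖ + ‖b'‖ + 1 → ‖v ^ (n + 1) * c‖ ≤ 1 := by
    intro n c hc
    rw [norm_mul, norm_pow, pow_succ, mul_assoc]
    refine mul_le_one₀ (pow_le_one₀ (norm_nonneg _) hv1)
      (mul_nonneg (norm_nonneg _) (norm_nonneg _)) ?_
    exact (mul_le_mul_of_nonneg_left hc (norm_nonneg _)).trans hvS
  have hvF : v ∈ F := F.algebraMap_mem u
  obtain ⟨aF, haF'⟩ : ∃ x : F, algebraMap F C x = v ^ 4 * a' :=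
    ⟨⟨v ^ 4 * a', F.mul_mem (pow_mem hvF 4) haF⟩, rfl⟩
  obtain ⟨bF, hbF'⟩ : ∃ x : F, algebraMap F C x = v ^ 6 * b' :=
    ⟨⟨v ^ 6 * b', F.mul_mem (pow_mem hvF 6) hbF⟩, rfl⟩
  have hVR := vr_sw a b aF bF v hv0 haF' hbF'
  have hΔ : ((sw a b).baseChange C).Δ ≠ 0 := by
    rw [sw_disc]
    exact mul_ne_zero (by norm_num) hne'
  have f4 : ((sw aF bF).baseChange C).a₄ = v ^ 4 * a' := haF'
  have f6 : ((sw aF bF).baseChange C).a₆ = v ^ 6 * b' := hbF'
  set e := hVR.equiv hΔ with he
  have hDe : e D = 0 := by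
    refine inter_abs (L := L) (C := C) (W := (sw aF bF).baseChange C)
      ⟨⟨map_zero _, map_zero _, map_zero _⟩, ?_, ?_⟩ two_ne_zero ?_
      (F.toSubalgebra.toSubmodule) (e D) ?_
    · rw [f4]
      exact hpow 3 a' (by linarith [norm_nonneg b'])
    · rw [f6]
      exact hpow 5 b' (by linarith [norm_nonneg a'])
    · rw [f4, f6]
      have h1 : 4 * (v ^ 4 * a') ^ 3 + 27 * (v ^ 6 * b') ^ 2 =
          v ^ 12 * (4 * a' ^ 3 + 27 * b' ^ 2) := by ring
      rw [h1]
      exact mul_ne_zero (pow_ne_zero _ hv0) hne'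
    · intro n hn
      obtain ⟨R, hR, hRσ⟩ := hdiv n hn
      refine ⟨e R, by rw [← map_nsmul, hR], fun m j => ?_⟩
      refine nc_mem (F := F.toSubfield) (m • e R) ?_ j
      intro x y hxy exy
      have hact : ∀ σ : C ≃ₐ[L] C, σ ∈ F.fixingSubgroup → σ x = x ∧ σ y = y := by
        intro σ hσ
        let f : C →ₐ[F] C :=
          { (σ : C →+* C) with
            commutes' := fun c => (IntermediateField.mem_fixingSubgroup_iff _ _).1 hσ c c.2 }
        have hf : ∀ w, f w = σ w := fun w => rfl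
        have hσv : σ v = v := σ.commutes u
        have h0 : pm (sw aF bF) f (e R) = e R := by
          apply pm_fixed
          intro x1 y1 hxy1 e1
          rcases R with _ | ⟨x0, y0, h0⟩
          · exfalso
            have h2 : e (Affine.Point.zero) = 0 := map_zero e
            rw [h2] at e1
            exact absurd e1.symm (Affine.Point.some_ne_zero _)
          · have h3 := hRσ σ hσ x0 y0 h0 rfl
            have h4 : e (.some x0 y0 h0) = .some _ _ _ := hVR.fn_some hΔ h0
            rw [h4] at e1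
            simp only [Affine.Point.some.injEq] at e1
            obtain ⟨e2, e3⟩ := e1
            rw [hf, hf, ← e2, ← e3]
            simp only [map_add, map_mul, map_pow, map_zero, hσv, h3.1, h3.2]
            exact ⟨trivial, trivial⟩
        have h1 : pm (sw aF bF) f (m • e R) = m • e R := by
          rw [map_nsmul, h0]
        rw [exy] at h1
        obtain ⟨h', e'⟩ := pm_some (E := sw aF bF) f hxy
        rw [e', Affine.Point.some.injEq] at h1
        exact h1
      exact ⟨hmem x fun σ hσ => (hact σ hσ).1, hmem y fun σ hσ => (hact σ hσ).2⟩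
  exact e.injective (hDe.trans (map_zero e).symm)

open scoped Classical in
theorem main : S_Inter2 := by
  intro L _ _ _ _ k _ _ a b hne z hab D hdiv
  let i1 : NormedField (AlgebraicClosure L) := spectralNorm.normedField L (AlgebraicClosure L)
  let i2 : NormedAlgebra L (AlgebraicClosure L) :=
    spectralNorm.normedAlgebra L (AlgebraicClosure L)
  have i3 : IsUltrametricDist (AlgebraicClosure L) :=
    IsUltrametricDist.isUltrametricDist_of_isNonarchimedean_norm
      (isNonarchimedean_spectralNorm (K := L) (L := AlgebraicClosure L))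
  have i4 : CharZero (AlgebraicClosure L) :=
    charZero_of_injective_algebraMap (algebraMap L (AlgebraicClosure L)).injective
  have hext : ∀ c : L, ‖algebraMap L (AlgebraicClosure L) c‖ = ‖c‖ := by
    intro c
    exact spectralNorm_extends _
  set F : IntermediateField L (AlgebraicClosure L) := IntermediateField.adjoin L {z} with hF
  have hfd : FiniteDimensional L F :=
    IntermediateField.adjoin.finiteDimensional (Algebra.IsIntegral.isIntegral z)
  have hfix : ∀ σ : AlgebraicClosure L ≃ₐ[L] AlgebraicClosure L, σ ∈ F.fixingSubgroup →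
      σ z = z := by
    intro σ hσ
    exact (IntermediateField.mem_fixingSubgroup_iff _ _).1 hσ z
      (IntermediateField.mem_adjoin_simple_self L z)
  have hmem : ∀ x : AlgebraicClosure L,
      (∀ σ : AlgebraicClosure L ≃ₐ[L] AlgebraicClosure L, σ ∈ F.fixingSubgroup → σ x = x) →
        x ∈ F := by
    intro x hx
    rw [← InfiniteGalois.fixedField_fixingSubgroup F, IntermediateField.mem_fixedField_iff]
    exact hx
  refine core (L := L) (C := AlgebraicClosure L) a b hne hext F hmem
    (fun σ hσ => hab σ (hfix σ hσ)) D ?_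
  intro n hn
  obtain ⟨R, hR, hRσ⟩ := hdiv n hn
  exact ⟨R, hR, fun σ hσ => hRσ σ (hfix σ hσ)⟩

end Pool.Agent.Y46.BF4
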